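import Pool.Agent.Lib.MP_eee7a8_ag.TB.H14.Full

/-!
# MP_eee7a8_ag, Q1: the extremal positive functions are the tagged bracelets

All definitions used in the statement are in `Pool/Agent/Lib/MP_eee7a8_ag/TB/Defs.lean`.

A subgroup `G` of `SL(2,ℤ)` with `IsSurface G` is a closed oriented surface with at least two
punctures together with an ideal triangulation (the image of the Farey tessellation); every such
surface is of this kind.  `Lam G K` is the generic decorated twisted `SL₂`-local system, given by the
lambda lengths of all arcs; `K` is the function field of the cluster variety, `L.U` is the ring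
`U(Sigma)`, `L.Upos` is `U(Sigma)⁺`, and `L.I β` is the Fock-Goncharov function of the tagged
bracelet `β`.
-/

namespace Pool.Agent.Results.MP_eee7a8_ag.TaggedBracelets

open Pool.Agent.Lib.MP_eee7a8_ag.TB

/-- For every surface the generic local system exists, and for every generic local system: the
functions of tagged bracelets do not vanish; a nonzero function is extremal (in particular an
element of `U(Sigma)⁺`) if and only if it is a positive multiple of the function of a tagged
bracelet; every element of `U(Sigma)⁺` is a nonnegative combination of functions of tagged
bracelets. -/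
theorem result :
    (∀ G : Subgroup SLZ, IsSurface G →
      ∃ (K : Type) (_ : Field K) (_ : Algebra ℂ K), Nonempty (Lam G K)) ∧
    (∀ (G : Subgroup SLZ) (K : Type) (_ : Field K) (_ : Algebra ℂ K) (L : Lam G K),
      IsSurface G →
      (∀ β : Bracelet G, L.I β ≠ 0) ∧
      (∀ z : K, z ≠ 0 → (L.Extremal z ↔
        ∃ (c : ℝ) (β : Bracelet G), 0 < c ∧ z = algebraMap ℂ K (c : ℂ) * L.I β)) ∧
      L.Upos ⊆ PosSpan (Set.range L.I)) :=
  full

end Pool.Agent.Results.MP_eee7a8_ag.TaggedBracelets
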